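import Pool.Agent.H41.Ev.Mul

/-!
# Cutting off along a frontier (MP_898b17_an, part of Lemma G)
-/

open MeasureTheory Set Metric Filter Topology ContDiff
open scoped ENNReal NNReal RealInnerProductSpace

namespace Pool.Agent.H2.Ev

open Pool.Agent.H41.Ev

variable {Ω Ω' U : Set ℂ} {u v w w' : ℂ → ℝ} {G H W W' : ℂ → ℂ} {φ ψ : ℂ → ℝ}

/-! ### The cut of a test function -/

theorem cut_eventually_zero {B : Set ℂ} (hB : IsOpen B) {F : ℝ → ℝ} {c : ℝ}
    (hF : ∀ t, c ≤ t → F t = 0) (hφ : Continuous φ) (hfr : ∀ z ∈ frontier B, c < φ z) {z : ℂ}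
    (hz : z ∉ B) : B.indicator (fun x => F (φ x)) =ᶠ[𝓝 z] fun _ => 0 := by
  by_cases hcl : z ∈ closure B
  · have hzf : z ∈ frontier B := by
      rw [hB.frontier_eq]
      exact ⟨hcl, hz⟩
    have h1 : ∀ᶠ x in 𝓝 z, c < φ x := (hφ.tendsto z).eventually (lt_mem_nhds (hfr z hzf))
    filter_upwards [h1] with x hx
    by_cases hxB : x ∈ B
    · rw [indicator_of_mem hxB, hF _ hx.le]
    · rw [indicator_of_notMem hxB]
  · have h1 : ∀ᶠ x in 𝓝 z, x ∈ (closure B)ᶜ := isClosed_closure.isOpen_compl.mem_nhds hcl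
    filter_upwards [h1] with x hx
    exact indicator_of_notMem (fun hxB => hx (subset_closure hxB)) _

theorem cut_eventually_eq {B : Set ℂ} (hB : IsOpen B) {F : ℝ → ℝ} {z : ℂ} (hz : z ∈ B) :
    B.indicator (fun x => F (φ x)) =ᶠ[𝓝 z] fun x => F (φ x) := by
  filter_upwards [hB.mem_nhds hz] with x hx
  exact indicator_of_mem hx _

theorem cut_isTest {B : Set ℂ} (hB : IsOpen B) (hBb : Bornology.IsBounded B) {F : ℝ → ℝ}
    (hFs : ContDiff ℝ ∞ F) {c : ℝ} (hF : ∀ t, c ≤ t → F t = 0) (hφ : IsTest univ φ)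
    (hfr : ∀ z ∈ frontier B, c < φ z) : IsTest B (B.indicator fun x => F (φ x)) := by
  have hsub : tsupport (B.indicator fun x => F (φ x)) ⊆ B := by
    intro z hz
    by_contra hzB
    have h1 := cut_eventually_zero hB hF hφ.continuous hfr hzB
    exact (notMem_tsupport_iff_eventuallyEq.2 h1) hz
  refine ⟨?_, ?_, hsub⟩
  · rw [contDiff_iff_contDiffAt]
    intro z
    by_cases hz : z ∈ B
    · exact (hFs.comp hφ.1).contDiffAt.congr_of_eventuallyEq (cut_eventually_eq hB hz)
    · exact contDiffAt_const.congr_of_eventuallyEq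
        (cut_eventually_zero hB hF hφ.continuous hfr hz)
  · exact Metric.isCompact_of_isClosed_isBounded (isClosed_tsupport _) (hBb.subset hsub)

theorem cut_gradient {B : Set ℂ} (hB : IsOpen B) {F : ℝ → ℝ}
    (hFs : ContDiff ℝ ∞ F) {c : ℝ} (hF : ∀ t, c ≤ t → F t = 0) (hφ : IsTest univ φ)
    (hfr : ∀ z ∈ frontier B, c < φ z) (z : ℂ) :
    gradient (B.indicator fun x => F (φ x)) z =
      B.indicator (fun x => deriv F (φ x)) z • gradient φ z := by
  by_cases hz : z ∈ B
  · have h1 : gradient (B.indicator fun x => F (φ x)) z = gradient (fun x => F (φ x)) z := by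
      rw [gradient_eq, gradient_eq, (cut_eventually_eq hB hz).fderiv_eq]
    rw [h1, gradient_comp' (hφ.differentiable z) (hFs.differentiable (by simp) _),
      indicator_of_mem hz]
  · have h1 : gradient (B.indicator fun x => F (φ x)) z = 0 := by
      rw [gradient_eq, (cut_eventually_zero hB hF hφ.continuous hfr hz).fderiv_eq]
      simp
    rw [h1, indicator_of_notMem hz, zero_smul]

/-! ### The cut of a smooth function of `w` -/

theorem memLp_indicator_add {B : Set ℂ} (hB : IsOpen B) (hBb : Bornology.IsBounded B)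
    (hw : MemLp w 2 volume) (K c : ℝ) :
    MemLp (B.indicator fun z => K * |w z - c|) 2 volume := by
  rw [memLp_indicator_iff_restrict hB.measurableSet]
  have hfin : volume B < ⊤ := hBb.measure_lt_top
  have : IsFiniteMeasure (volume.restrict B) := ⟨by simpa using hfin⟩
  have h1 : MemLp (fun z => w z - c) 2 (volume.restrict B) :=
    (hw.mono_measure Measure.restrict_le_self).sub (memLp_const c)
  exact h1.norm.const_mul K

theorem cut_smooth {B : Set ℂ} (hB : IsOpen B) (hBb : Bornology.IsBounded B)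
    (h : H10 univ w W) {φ : ℕ → ℂ → ℝ} (hφ : ∀ n, IsTest univ (φ n))
    (hl : Tendsto (fun n => eLpNorm (fun z => φ n z - w z) 2 volume) atTop (𝓝 0))
    (hlG : Tendsto (fun n => eLpNorm (fun z => gradient (φ n) z - W z) 2 volume) atTop (𝓝 0))
    (hae : ∀ᵐ z, Tendsto (fun n => φ n z) atTop (𝓝 (w z)))
    {F : ℝ → ℝ} (hFs : ContDiff ℝ ∞ F) {c : ℝ} (hF : ∀ t, c ≤ t → F t = 0) {K : ℝ}
    (hK : ∀ t, |deriv F t| ≤ K) (hfr : ∀ n, ∀ z ∈ frontier B, c < φ n z) :
    H10 B (B.indicator fun z => F (w z)) (fun z => B.indicator (fun x => deriv F (w x)) z • W z) := by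
  have hFd : Differentiable ℝ F := hFs.differentiable (by simp)
  have hF' : Continuous (deriv F) := hFs.continuous_deriv (by simp)
  have hK0 : 0 ≤ K := (abs_nonneg _).trans (hK 0)
  obtain ⟨k1, k2⟩ := tendsto_eLpNorm_smul (an := fun n => B.indicator fun x => deriv F (φ n x))
    (a := B.indicator fun x => deriv F (w x)) (Gn := fun n => gradient (φ n)) (G := W) (C := K)
    (fun n => ((hF'.comp (hφ n).continuous).aestronglyMeasurable).indicator hB.measurableSet)
    (fun n => Eventually.of_forall fun z => by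
      by_cases hz : z ∈ B
      · rw [indicator_of_mem hz]; exact hK _
      · rw [indicator_of_notMem hz]; simpa using hK0) (by
      filter_upwards [hae] with z hz
      by_cases hzB : z ∈ B
      · simp only [indicator_of_mem hzB]
        exact (hF'.tendsto _).comp hz
      · simp only [indicator_of_notMem hzB]
        exact tendsto_const_nhds) h.2 (fun n => (hφ n).memLp_gradient 2) hlG
  have hT : ∀ n, IsTest B (B.indicator fun x => F (φ n x)) := fun n =>
    cut_isTest hB hBb hFs hF (hφ n) (hfr n)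
  have hmem : MemLp (B.indicator fun z => F (w z)) 2 volume := by
    refine MemLp.mono (memLp_indicator_add hB hBb h.1 K c)
      ((hFs.continuous.comp_aestronglyMeasurable h.1.1).indicator hB.measurableSet)
      (Eventually.of_forall fun z => ?_)
    by_cases hz : z ∈ B
    · rw [indicator_of_mem hz, indicator_of_mem hz]
      have := abs_sub_le_of_deriv hFd hK (w z) c
      rw [hF c le_rfl, sub_zero] at this
      exact this.trans (le_abs_self _)
    · rw [indicator_of_notMem hz, indicator_of_notMem hz]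
  refine H10.of_tendsto (fun n => (hT n).h10) hmem k1 ?_ ?_
  · have h6 : Tendsto (fun n => ENNReal.ofReal K * eLpNorm (fun x => φ n x - w x) 2 volume) atTop
        (𝓝 0) := by
      have := (ENNReal.Tendsto.const_mul (a := ENNReal.ofReal K) hl (Or.inr (by simp)))
      simpa using this
    refine tendsto_of_tendsto_of_tendsto_of_le_of_le tendsto_const_nhds h6 (fun n => bot_le) ?_
    intro n
    refine eLpNorm_le_mul_eLpNorm_of_ae_le_mul (Eventually.of_forall fun z => ?_) 2
    by_cases hz : z ∈ B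
    · rw [indicator_of_mem hz, indicator_of_mem hz]
      exact abs_sub_le_of_deriv hFd hK _ _
    · rw [indicator_of_notMem hz, indicator_of_notMem hz, sub_zero, norm_zero]
      positivity
  · refine k2.congr fun n => ?_
    congr 1
    ext1 z
    rw [cut_gradient hB hFs hF (hφ n) (hfr n)]

/-! ### Smooth approximations of the positive part -/

/-- A smooth function vanishing on `(-∞,0]`, equal to the identity on `[1,∞)`. -/
noncomputable def Th (s : ℝ) : ℝ := s * Real.smoothTransition s

theorem Th_contDiff : ContDiff ℝ ∞ Th := contDiff_id.mul Real.smoothTransition.contDiff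

theorem Th_of_nonpos {s : ℝ} (hs : s ≤ 0) : Th s = 0 := by
  rw [Th, Real.smoothTransition.zero_of_nonpos hs, mul_zero]

theorem Th_of_one_le {s : ℝ} (hs : 1 ≤ s) : Th s = s := by
  rw [Th, Real.smoothTransition.one_of_one_le hs, mul_one]

theorem Th_deriv_continuous : Continuous (deriv Th) := Th_contDiff.continuous_deriv (by simp)

theorem Th_deriv_of_neg {s : ℝ} (hs : s < 0) : deriv Th s = 0 := by
  have : Th =ᶠ[𝓝 s] fun _ => 0 := by
    filter_upwards [gt_mem_nhds hs] with t ht
    exact Th_of_nonpos (le_of_lt ht)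
  rw [this.deriv_eq]
  simp

theorem Th_deriv_of_nonpos {s : ℝ} (hs : s ≤ 0) : deriv Th s = 0 := by
  rcases hs.lt_or_eq with h | h
  · exact Th_deriv_of_neg h
  · subst h
    have h1 : Tendsto (deriv Th) (𝓝[<] 0) (𝓝 (deriv Th 0)) :=
      (Th_deriv_continuous.tendsto 0).mono_left nhdsWithin_le_nhds
    have h2 : Tendsto (deriv Th) (𝓝[<] 0) (𝓝 0) := by
      refine tendsto_const_nhds.congr' ?_
      filter_upwards [self_mem_nhdsWithin] with t ht
      exact (Th_deriv_of_neg ht).symm
    exact tendsto_nhds_unique h1 h2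

theorem Th_deriv_of_one_lt {s : ℝ} (hs : 1 < s) : deriv Th s = 1 := by
  have : Th =ᶠ[𝓝 s] fun t => t := by
    filter_upwards [lt_mem_nhds hs] with t ht
    exact Th_of_one_le (le_of_lt ht)
  rw [this.deriv_eq]
  simp

theorem Th_deriv_bound : ∃ K : ℝ, ∀ s, |deriv Th s| ≤ K := by
  obtain ⟨K, hK⟩ := (isCompact_Icc (a := (0 : ℝ)) (b := 1)).exists_bound_of_continuousOn
    Th_deriv_continuous.continuousOn
  refine ⟨max K 1, fun s => ?_⟩
  rcases le_or_gt s 0 with h | h
  · rw [Th_deriv_of_nonpos h]; simp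
  rcases lt_or_ge 1 s with h1 | h1
  · rw [Th_deriv_of_one_lt h1]; simp
  · exact (hK s ⟨h.le, h1⟩).trans (le_max_left _ _)

/-- The approximations of `max (c - t) 0`. -/
noncomputable def Fm (c : ℝ) (m : ℕ) (t : ℝ) : ℝ := Th (((m : ℝ) + 1) * (c - t)) / ((m : ℝ) + 1)

theorem Fm_contDiff (c : ℝ) (m : ℕ) : ContDiff ℝ ∞ (Fm c m) := by
  apply ContDiff.div_const
  exact Th_contDiff.comp (contDiff_const.mul (contDiff_const.sub contDiff_id))

theorem Fm_of_le {c : ℝ} (m : ℕ) {t : ℝ} (ht : c ≤ t) : Fm c m t = 0 := by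
  have h1 : ((m : ℝ) + 1) * (c - t) ≤ 0 :=
    mul_nonpos_of_nonneg_of_nonpos (by positivity) (by linarith)
  rw [Fm, Th_of_nonpos h1, zero_div]

theorem Fm_deriv (c : ℝ) (m : ℕ) (t : ℝ) :
    deriv (Fm c m) t = - deriv Th (((m : ℝ) + 1) * (c - t)) := by
  have hm : ((m : ℝ) + 1) ≠ 0 := by positivity
  have h1 : HasDerivAt (fun t : ℝ => ((m : ℝ) + 1) * (c - t)) (((m : ℝ) + 1) * (-1)) t :=
    ((hasDerivAt_id t).const_sub c).const_mul _
  have h2 : HasDerivAt Th (deriv Th (((m : ℝ) + 1) * (c - t))) (((m : ℝ) + 1) * (c - t)) :=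
    (Th_contDiff.differentiable (by simp) _).hasDerivAt
  have h3 := (h2.comp t h1).div_const ((m : ℝ) + 1)
  have h4 : HasDerivAt (Fm c m) (deriv Th (((m : ℝ) + 1) * (c - t)) * (((m : ℝ) + 1) * (-1)) /
    ((m : ℝ) + 1)) t := h3
  rw [h4.deriv]
  field_simp

theorem Fm_tendsto (c t : ℝ) : Tendsto (fun m => Fm c m t) atTop (𝓝 (max (c - t) 0)) := by
  rcases le_or_gt c t with h | h
  · simp only [fun m => Fm_of_le m h]
    rw [max_eq_right (by linarith)]
    exact tendsto_const_nhds
  · rw [max_eq_left (by linarith)]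
    have h1 : ∀ᶠ m : ℕ in atTop, 1 ≤ ((m : ℝ) + 1) * (c - t) := by
      obtain ⟨N, hN⟩ := exists_nat_gt (1 / (c - t))
      filter_upwards [eventually_ge_atTop N] with m hm
      have hct : 0 < c - t := by linarith
      rw [div_lt_iff₀ hct] at hN
      have : (N : ℝ) ≤ m := by exact_mod_cast hm
      nlinarith
    refine tendsto_const_nhds.congr' ?_
    filter_upwards [h1] with m hm
    rw [Fm, Th_of_one_le hm]
    have : ((m : ℝ) + 1) ≠ 0 := by positivity
    field_simp

open Classical in
theorem Fm_deriv_tendsto (c t : ℝ) : Tendsto (fun m => deriv (Fm c m) t) atTop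
    (𝓝 (if t < c then -1 else 0)) := by
  simp only [Fm_deriv]
  split_ifs with h
  · have h1 : ∀ᶠ m : ℕ in atTop, 1 < ((m : ℝ) + 1) * (c - t) := by
      obtain ⟨N, hN⟩ := exists_nat_gt (1 / (c - t))
      filter_upwards [eventually_ge_atTop N] with m hm
      have hct : 0 < c - t := by linarith
      rw [div_lt_iff₀ hct] at hN
      have : (N : ℝ) ≤ m := by exact_mod_cast hm
      nlinarith
    refine tendsto_const_nhds.congr' ?_
    filter_upwards [h1] with m hm
    rw [Th_deriv_of_one_lt hm]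
  · have h1 : ∀ m : ℕ, ((m : ℝ) + 1) * (c - t) ≤ 0 := fun m =>
      mul_nonpos_of_nonneg_of_nonpos (by positivity) (by linarith)
    simp only [fun m => Th_deriv_of_nonpos (h1 m), neg_zero]
    exact tendsto_const_nhds

end Pool.Agent.H2.Ev

namespace Pool.Agent.H41.Ev

open Pool.Agent.H2.Ev

theorem cut_limit {w : ℂ → ℝ} {W : ℂ → ℂ} (h : H10 univ w W) {B : Set ℂ} (hB : IsOpen B)
    (hBb : Bornology.IsBounded B) {φ : ℕ → ℂ → ℝ} (hφ : ∀ n, IsTest univ (φ n))
    (hl : Tendsto (fun n => eLpNorm (fun z => φ n z - w z) 2 volume) atTop (𝓝 0))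
    (hlG : Tendsto (fun n => eLpNorm (fun z => gradient (φ n) z - W z) 2 volume) atTop (𝓝 0))
    (hae : ∀ᵐ z, Tendsto (fun n => φ n z) atTop (𝓝 (w z)))
    (_haeG : ∀ᵐ z, Tendsto (fun n => gradient (φ n) z) atTop (𝓝 (W z)))
    {b : ℝ} (hb : ∀ n, ∀ z ∈ frontier B, b < φ n z) {c : ℝ} (hc : c ≤ b) :
    H10 B (B.indicator fun z => max (c - w z) 0)
      ((B ∩ {z | w z < c}).indicator fun z => - W z) := by
  classical
  obtain ⟨K, hK⟩ := Th_deriv_bound
  have hK0 : 0 ≤ K := (abs_nonneg _).trans (hK 0)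
  have hKm : ∀ m t, |deriv (Fm c m) t| ≤ K := by
    intro m t
    rw [Fm_deriv, abs_neg]
    exact hK _
  have hm : ∀ m, H10 B (B.indicator fun z => Fm c m (w z))
      (fun z => B.indicator (fun x => deriv (Fm c m) (w x)) z • W z) := fun m =>
    cut_smooth hB hBb h hφ hl hlG hae (Fm_contDiff c m) (fun t ht => Fm_of_le m ht) (hKm m)
      (fun n z hz => hc.trans_lt (hb n z hz))
  refine H10.of_dominated hm (memLp_indicator_add hB hBb h.1 K c) (h.2.norm.const_mul K)
    (fun m => Eventually.of_forall fun z => ?_) (fun m => Eventually.of_forall fun z => ?_)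
    (Eventually.of_forall fun z => ?_) (Eventually.of_forall fun z => ?_)
  · by_cases hz : z ∈ B
    · rw [indicator_of_mem hz, indicator_of_mem hz]
      have := abs_sub_le_of_deriv ((Fm_contDiff c m).differentiable (by simp)) (hKm m) (w z) c
      rwa [Fm_of_le m le_rfl, sub_zero] at this
    · rw [indicator_of_notMem hz, indicator_of_notMem hz, abs_zero]
  · rw [norm_smul]
    refine mul_le_mul_of_nonneg_right ?_ (norm_nonneg _)
    by_cases hz : z ∈ B
    · rw [indicator_of_mem hz]; exact hKm m _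
    · rw [indicator_of_notMem hz, norm_zero]; exact hK0
  · by_cases hz : z ∈ B
    · simp only [indicator_of_mem hz]
      exact Fm_tendsto c (w z)
    · simp only [indicator_of_notMem hz]
      exact tendsto_const_nhds
  · by_cases hz : z ∈ B
    · simp only [indicator_of_mem hz]
      have h1 := (Fm_deriv_tendsto c (w z)).smul_const (W z)
      by_cases hwc : w z < c
      · rw [if_pos hwc, neg_one_smul] at h1
        rw [indicator_of_mem (show z ∈ B ∩ {z | w z < c} from ⟨hz, hwc⟩)]
        exact h1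
      · rw [if_neg hwc, zero_smul] at h1
        rw [indicator_of_notMem (fun h' : z ∈ B ∩ {z | w z < c} => hwc h'.2)]
        exact h1
    · rw [indicator_of_notMem (fun h' : z ∈ B ∩ {z | w z < c} => hz h'.1)]
      simp only [indicator_of_notMem hz, zero_smul]
      exact tendsto_const_nhds

end Pool.Agent.H41.Ev
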