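import Pool.Agent.H41.Ev.Lim

/-!
# Inequalities for `H¹₀` of the plane (MP_898b17_an, M2)

Poincare, Ladyzhenskaya and Nash inequalities.
-/

open MeasureTheory Set Metric Filter Topology ContDiff
open scoped ENNReal NNReal RealInnerProductSpace

namespace Pool.Agent.H2.Ev

open Pool.Agent.H41.Ev

variable {Ω Ω' U : Set ℂ} {u v w w' : ℂ → ℝ} {G H W W' : ℂ → ℂ} {φ ψ : ℂ → ℝ}

/-! ### `L²` tools -/

theorem integrable_sq_norm {F : Type*} [NormedAddCommGroup F] {f : ℂ → F} {μ : Measure ℂ}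
    (hf : MemLp f 2 μ) : Integrable (fun z => ‖f z‖ ^ 2) μ := by
  have := hf.integrable_norm_rpow (by norm_num) (by norm_num)
  simpa using this

theorem integral_sq_norm_eq {F : Type*} [NormedAddCommGroup F] {f : ℂ → F} {μ : Measure ℂ}
    (hf : MemLp f 2 μ) : ∫ z, ‖f z‖ ^ 2 ∂μ = (eLpNorm f 2 μ).toReal ^ 2 := by
  have h := hf.eLpNorm_eq_integral_rpow_norm (by norm_num) (by norm_num)
  rw [h, ENNReal.toReal_ofReal]
  · simp only [ENNReal.toReal_ofNat, Real.rpow_ofNat]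
    rw [← Real.rpow_natCast, ← Real.rpow_mul]
    · norm_num
    · positivity
  · apply Real.rpow_nonneg
    positivity

/-- Cauchy-Schwarz for real functions. -/
theorem cauchy_schwarz {f g : ℂ → ℝ} {μ : Measure ℂ} (hf : MemLp f 2 μ) (hg : MemLp g 2 μ) :
    (∫ z, |f z * g z| ∂μ) ^ 2 ≤ (∫ z, f z ^ 2 ∂μ) * ∫ z, g z ^ 2 ∂μ := by
  have h := integral_mul_norm_le_Lp_mul_Lq (μ := μ) (f := f) (g := g) (p := 2) (q := 2)
    Real.HolderConjugate.two_two (by simpa using hf) (by simpa using hg)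
  simp only [Real.norm_eq_abs, Real.rpow_ofNat, sq_abs] at h
  have e : ∀ z, |f z * g z| = |f z| * |g z| := fun z => abs_mul _ _
  simp only [e]
  have h0 : 0 ≤ ∫ z, |f z| * |g z| ∂μ := by positivity
  have h1 : 0 ≤ ∫ z, f z ^ 2 ∂μ := by positivity
  have h2 : 0 ≤ ∫ z, g z ^ 2 ∂μ := by positivity
  calc (∫ z, |f z| * |g z| ∂μ) ^ 2 ≤
      ((∫ z, f z ^ 2 ∂μ) ^ (1 / (2 : ℝ)) * (∫ z, g z ^ 2 ∂μ) ^ (1 / (2 : ℝ))) ^ 2 := by gcongr
    _ = (∫ z, f z ^ 2 ∂μ) * ∫ z, g z ^ 2 ∂μ := by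
      rw [mul_pow, ← Real.sqrt_eq_rpow, ← Real.sqrt_eq_rpow, Real.sq_sqrt h1, Real.sq_sqrt h2]

/-- `L²` convergence implies convergence of the norms. -/
theorem tendsto_integral_sq_norm {F : Type*} [NormedAddCommGroup F] {fn : ℕ → ℂ → F}
    {f : ℂ → F} {μ : Measure ℂ} (hm : ∀ n, MemLp (fn n) 2 μ) (hf : MemLp f 2 μ)
    (h : Tendsto (fun n => eLpNorm (fun z => fn n z - f z) 2 μ) atTop (𝓝 0)) :
    Tendsto (fun n => ∫ z, ‖fn n z‖ ^ 2 ∂μ) atTop (𝓝 (∫ z, ‖f z‖ ^ 2 ∂μ)) := by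
  simp only [fun n => integral_sq_norm_eq (hm n), integral_sq_norm_eq hf]
  refine Tendsto.pow ?_ 2
  have h' : Tendsto (fun n => (eLpNorm (fun z => fn n z - f z) 2 μ).toReal) atTop (𝓝 0) := by
    have := (ENNReal.tendsto_toReal ENNReal.zero_ne_top).comp h
    simpa [Function.comp_def] using this
  rw [tendsto_iff_dist_tendsto_zero]
  refine squeeze_zero (fun n => dist_nonneg) (fun n => ?_) h'
  have e1 : eLpNorm (fn n) 2 μ ≤ eLpNorm (fun z => fn n z - f z) 2 μ + eLpNorm f 2 μ := by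
    have := eLpNorm_add_le (p := 2) ((hm n).sub hf).1 hf.1 (by norm_num)
    have e : (fn n - f) + f = fn n := by abel
    rwa [e] at this
  have e2 : eLpNorm f 2 μ ≤ eLpNorm (fun z => fn n z - f z) 2 μ + eLpNorm (fn n) 2 μ := by
    have := eLpNorm_add_le (p := 2) (hf.sub (hm n)).1 (hm n).1 (by norm_num)
    have e : (f - fn n) + fn n = f := by abel
    rw [e, eLpNorm_sub_comm] at this
    exact this
  have hd : eLpNorm (fun z => fn n z - f z) 2 μ ≠ ⊤ := ((hm n).sub hf).2.ne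
  have e1' := ENNReal.toReal_mono (ENNReal.add_ne_top.2 ⟨hd, hf.2.ne⟩) e1
  have e2' := ENNReal.toReal_mono (ENNReal.add_ne_top.2 ⟨hd, (hm n).2.ne⟩) e2
  rw [ENNReal.toReal_add hd hf.2.ne] at e1'
  rw [ENNReal.toReal_add hd (hm n).2.ne] at e2'
  rw [Real.dist_eq, abs_le]
  constructor <;> linarith

/-- `L²` convergence implies convergence of the integrals against an `L²` function. -/
theorem tendsto_integral_mul {fn : ℕ → ℂ → ℝ} {f g : ℂ → ℝ} {μ : Measure ℂ}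
    (hm : ∀ n, MemLp (fn n) 2 μ) (hf : MemLp f 2 μ) (hg : MemLp g 2 μ)
    (h : Tendsto (fun n => eLpNorm (fun z => fn n z - f z) 2 μ) atTop (𝓝 0)) :
    Tendsto (fun n => ∫ z, g z * fn n z ∂μ) atTop (𝓝 (∫ z, g z * f z ∂μ)) := by
  have h' : Tendsto (fun n => (eLpNorm (fun z => fn n z - f z) 2 μ).toReal) atTop (𝓝 0) := by
    have := (ENNReal.tendsto_toReal ENNReal.zero_ne_top).comp h
    simpa [Function.comp_def] using this
  have h2 : Tendsto (fun n => (eLpNorm g 2 μ).toReal *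
      (eLpNorm (fun z => fn n z - f z) 2 μ).toReal) atTop (𝓝 0) := by
    simpa using h'.const_mul (eLpNorm g 2 μ).toReal
  rw [tendsto_iff_dist_tendsto_zero]
  refine squeeze_zero (fun n => dist_nonneg) (fun n => ?_) h2
  have hi : Integrable (fun z => g z * fn n z) μ := hg.integrable_mul (hm n)
  have hi' : Integrable (fun z => g z * f z) μ := hg.integrable_mul hf
  rw [Real.dist_eq, ← integral_sub hi hi']
  have e : ∀ z, g z * fn n z - g z * f z = g z * (fn n z - f z) := fun z => by ring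
  simp only [e]
  have h3 := cauchy_schwarz hg ((hm n).sub hf)
  simp only [Pi.sub_apply] at h3
  have h4 : ∫ z, g z ^ 2 ∂μ = (eLpNorm g 2 μ).toReal ^ 2 := by
    rw [← integral_sq_norm_eq hg]; simp
  have h5 : ∫ z, (fn n z - f z) ^ 2 ∂μ = (eLpNorm (fun z => fn n z - f z) 2 μ).toReal ^ 2 := by
    have := integral_sq_norm_eq ((hm n).sub hf)
    simp only [Pi.sub_apply, Real.norm_eq_abs, sq_abs] at this
    exact this
  rw [h4, h5, ← mul_pow] at h3
  have h6 := abs_le_of_sq_le_sq h3 (by positivity)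
  refine (abs_integral_le_integral_abs).trans ?_
  rw [abs_of_nonneg (by positivity)] at h6
  exact h6

/-! ### Test functions -/

theorem finrank_holder : Real.HolderConjugate (Module.finrank ℝ ℂ : ℝ) 2 := by
  rw [Complex.finrank_real_complex]
  exact_mod_cast Real.HolderConjugate.two_two

/-- Gagliardo-Nirenberg-Sobolev on the plane, real integrals. -/
theorem gns : ∃ C : ℝ, 0 < C ∧ ∀ φ : ℂ → ℝ, IsTest univ φ →
    ∫ z, φ z ^ 2 ≤ C * (∫ z, ‖gradient φ z‖) ^ 2 := by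
  refine ⟨(lintegralPowLePowLIntegralFDerivConst (volume : Measure ℂ) 2 : ℝ≥0) + 1,
    by positivity, fun φ h => ?_⟩
  have h1 := lintegral_pow_le_pow_lintegral_fderiv (μ := (volume : Measure ℂ)) (u := φ)
    (h.1.of_le (by simp)) h.2.1 finrank_holder
  have h2 : ∫⁻ z, ‖φ z‖ₑ ^ (2 : ℝ) = ENNReal.ofReal (∫ z, φ z ^ 2) := by
    rw [ofReal_integral_eq_lintegral_ofReal]
    · refine lintegral_congr fun z => ?_
      rw [← ofReal_norm, ENNReal.ofReal_rpow_of_nonneg (norm_nonneg _) (by norm_num)]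
      congr 1
      simp
    · have := integrable_sq_norm (h.memLp 2)
      simpa using this
    · exact Eventually.of_forall fun z => sq_nonneg _
  have h3 : ∫⁻ z, ‖fderiv ℝ φ z‖ₑ = ENNReal.ofReal (∫ z, ‖gradient φ z‖) := by
    rw [ofReal_integral_eq_lintegral_ofReal]
    · refine lintegral_congr fun z => ?_
      rw [← ofReal_norm, norm_gradient]
    · exact (memLp_one_iff_integrable.1 (h.memLp_gradient 1)).norm
    · exact Eventually.of_forall fun z => norm_nonneg _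
  rw [h2, h3] at h1
  have h0 : 0 ≤ ∫ z, ‖gradient φ z‖ := by positivity
  have h4 : (lintegralPowLePowLIntegralFDerivConst (volume : Measure ℂ) 2 : ℝ≥0∞) *
      ENNReal.ofReal (∫ z, ‖gradient φ z‖) ^ (2 : ℝ) =
      ENNReal.ofReal ((lintegralPowLePowLIntegralFDerivConst (volume : Measure ℂ) 2 : ℝ≥0) *
        (∫ z, ‖gradient φ z‖) ^ 2) := by
    rw [ENNReal.ofReal_mul (by positivity), ENNReal.ofReal_coe_nnreal,
      ENNReal.ofReal_rpow_of_nonneg h0 (by norm_num)]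
    simp
  rw [h4] at h1
  have h5 := (ENNReal.ofReal_le_ofReal_iff (by positivity)).1 h1
  refine h5.trans ?_
  gcongr
  linarith

theorem isTest_sq (h : IsTest Ω φ) : IsTest Ω (fun z => φ z ^ 2) := by
  have := h.mul h
  rw [inter_self] at this
  have e : (fun z => φ z ^ 2) = fun z => φ z * φ z := by ext z; ring
  rwa [e]

theorem gradient_sq (h : IsTest Ω φ) (z : ℂ) :
    gradient (fun z => φ z ^ 2) z = (2 * φ z) • gradient φ z := by
  have := gradient_mul' (h.differentiable z) (h.differentiable z)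
  simp only [sq]
  rw [this, two_mul, add_smul]

/-- Ladyzhenskaya for test functions. -/
theorem lady_test : ∃ C : ℝ, 0 < C ∧ ∀ φ : ℂ → ℝ, IsTest univ φ →
    ∫ z, φ z ^ 4 ≤ C * (∫ z, φ z ^ 2) * ∫ z, ‖gradient φ z‖ ^ 2 := by
  obtain ⟨C, hC, h⟩ := gns
  refine ⟨4 * C, by positivity, fun φ hφ => ?_⟩
  have h1 := h _ (isTest_sq hφ)
  have e1 : ∀ z, (φ z ^ 2) ^ 2 = φ z ^ 4 := fun z => by ring
  have e2 : ∀ z, ‖gradient (fun z => φ z ^ 2) z‖ = 2 * |φ z * ‖gradient φ z‖| := fun z => by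
    rw [gradient_sq hφ, norm_smul, Real.norm_eq_abs, abs_mul, abs_mul, abs_norm]
    simp only [Nat.abs_ofNat]
    ring
  simp only [e1, e2] at h1
  rw [integral_const_mul] at h1
  have h2 := cauchy_schwarz (hφ.memLp 2) (hφ.memLp_gradient 2).norm
  refine h1.trans ?_
  calc C * (2 * ∫ z, |φ z * ‖gradient φ z‖|) ^ 2
      = 4 * C * (∫ z, |φ z * ‖gradient φ z‖|) ^ 2 := by ring
    _ ≤ 4 * C * ((∫ z, φ z ^ 2) * ∫ z, ‖gradient φ z‖ ^ 2) := by gcongr
    _ = _ := by ring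

/-- Poincare for test functions. -/
theorem poincare_test : ∃ C : ℝ, 0 < C ∧ ∀ (Ω : Set ℂ) (φ : ℂ → ℝ), IsOpen Ω → volume Ω < ⊤ →
    IsTest Ω φ → ∫ z, φ z ^ 2 ≤ C * (volume Ω).toReal * ∫ z, ‖gradient φ z‖ ^ 2 := by
  obtain ⟨C, hC, h⟩ := gns
  refine ⟨C, hC, fun Ω φ hΩ hfin hφ => ?_⟩
  have h1 := h φ (hφ.mono (subset_univ _))
  have h2 : ∫ z, ‖gradient φ z‖ = ∫ z, |Ω.indicator (fun _ => (1 : ℝ)) z * ‖gradient φ z‖| := by
    refine integral_congr_ae (Eventually.of_forall fun z => ?_)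
    by_cases hz : z ∈ Ω
    · simp [hz]
    · have : gradient φ z = 0 := gradient_zero_of_notMem_tsupport fun hz' => hz (hφ.2.2 hz')
      simp [hz, this]
  have hind : MemLp (Ω.indicator (fun _ => (1 : ℝ))) 2 volume :=
    memLp_indicator_const 2 hΩ.measurableSet 1 (Or.inr hfin.ne)
  have h3 := cauchy_schwarz hind (hφ.memLp_gradient 2).norm
  have h4 : ∫ z, Ω.indicator (fun _ => (1 : ℝ)) z ^ 2 = (volume Ω).toReal := by
    have e : ∀ z, Ω.indicator (fun _ => (1 : ℝ)) z ^ 2 = Ω.indicator (fun _ => (1 : ℝ)) z := by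
      intro z
      by_cases hz : z ∈ Ω <;> simp [hz]
    simp only [e]
    rw [integral_indicator hΩ.measurableSet]
    simp [Measure.real]
  rw [h4] at h3
  rw [h2] at h1
  refine h1.trans ?_
  rw [mul_assoc]
  gcongr

/-! ### The inequalities for `H¹₀` -/

theorem h10_exists_approx (h : H10 Ω u G) : ∃ φ : ℕ → ℂ → ℝ, (∀ n, IsTest Ω (φ n)) ∧
    Tendsto (fun n => ∫ z, φ n z ^ 2) atTop (𝓝 (∫ z, u z ^ 2)) ∧
    Tendsto (fun n => ∫ z, ‖gradient (φ n) z‖ ^ 2) atTop (𝓝 (∫ z, ‖G z‖ ^ 2)) ∧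
    ∀ᵐ z, Tendsto (fun n => φ n z) atTop (𝓝 (u z)) := by
  obtain ⟨φ, h1, h2, h3⟩ := h.approx
  have hm : TendstoInMeasure volume φ atTop u := by
    refine tendstoInMeasure_of_tendsto_eLpNorm (p := 2) (by norm_num)
      (fun n => ((h1 n).memLp 2).1) h.1.1 ?_
    exact h2
  obtain ⟨ns, hns, hae⟩ := hm.exists_seq_tendsto_ae
  have t1 := tendsto_integral_sq_norm (fun n => (h1 n).memLp 2) h.1 h2
  have t2 := tendsto_integral_sq_norm (fun n => (h1 n).memLp_gradient 2) h.2 h3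
  simp only [Real.norm_eq_abs, sq_abs] at t1
  exact ⟨fun n => φ (ns n), fun n => h1 _, t1.comp hns.tendsto_atTop, t2.comp hns.tendsto_atTop,
    hae⟩

theorem memLp_sq_of_four {μ : Measure ℂ} (h : MemLp u 4 μ) : MemLp (fun z => u z ^ 2) 2 μ := by
  have := h.norm_rpow_div (2 : ℝ≥0∞)
  have e1 : (4 : ℝ≥0∞) / 2 = 2 := by
    rw [ENNReal.div_eq_inv_mul, show (4 : ℝ≥0∞) = 2 * 2 by norm_num, ← mul_assoc,
      ENNReal.inv_mul_cancel (by norm_num) (by norm_num), one_mul]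
  rw [e1] at this
  simpa using this

end Pool.Agent.H2.Ev

namespace Pool.Agent.H41.Ev

open Pool.Agent.H2.Ev

theorem poincare : ∃ C : ℝ, 0 < C ∧ ∀ (Ω : Set ℂ) (u : ℂ → ℝ) (G : ℂ → ℂ), IsOpen Ω →
    volume Ω < ⊤ → H10 Ω u G → ∫ z, u z ^ 2 ≤ C * (volume Ω).toReal * ∫ z, ‖G z‖ ^ 2 := by
  obtain ⟨C, hC, h⟩ := poincare_test
  refine ⟨C, hC, fun Ω u G hΩ hfin hu => ?_⟩
  obtain ⟨φ, h1, h2, h3, -⟩ := h10_exists_approx hu
  exact le_of_tendsto_of_tendsto' h2 (h3.const_mul _) fun n => h Ω (φ n) hΩ hfin (h1 n)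

theorem ladyzhenskaya : ∃ C : ℝ, 0 < C ∧ ∀ (u : ℂ → ℝ) (G : ℂ → ℂ), H10 univ u G →
    MemLp u 4 volume ∧ ∫ z, u z ^ 4 ≤ C * (∫ z, u z ^ 2) * ∫ z, ‖G z‖ ^ 2 := by
  obtain ⟨C, hC, h⟩ := lady_test
  refine ⟨C, hC, fun u G hu => ?_⟩
  obtain ⟨φ, h1, h2, h3, h4⟩ := h10_exists_approx hu
  have key : ∫⁻ z, ‖u z‖ₑ ^ 4 ≤ ENNReal.ofReal (C * (∫ z, u z ^ 2) * ∫ z, ‖G z‖ ^ 2) := by
    have hl : Tendsto (fun n => ENNReal.ofReal (C * (∫ z, φ n z ^ 2) *
        ∫ z, ‖gradient (φ n) z‖ ^ 2)) atTop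
        (𝓝 (ENNReal.ofReal (C * (∫ z, u z ^ 2) * ∫ z, ‖G z‖ ^ 2))) :=
      (ENNReal.continuous_ofReal.tendsto _).comp ((h2.const_mul C).mul h3)
    have hfat : ∫⁻ z, ‖u z‖ₑ ^ 4 ≤ liminf (fun n => ∫⁻ z, ‖φ n z‖ₑ ^ 4) atTop := by
      calc ∫⁻ z, ‖u z‖ₑ ^ 4 = ∫⁻ z, liminf (fun n => ‖φ n z‖ₑ ^ 4) atTop := by
            refine lintegral_congr_ae ?_
            filter_upwards [h4] with z hz
            have h5 : Tendsto (fun n => ‖φ n z‖ₑ ^ 4) atTop (𝓝 (‖u z‖ₑ ^ 4)) :=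
              ((ENNReal.continuous_pow 4).tendsto _).comp ((continuous_enorm.tendsto _).comp hz)
            exact h5.liminf_eq.symm
        _ ≤ _ := lintegral_liminf_le' fun n =>
            (((h1 n).continuous.enorm.measurable).pow_const 4).aemeasurable
    refine hfat.trans ?_
    refine (liminf_le_liminf (Eventually.of_forall fun n => ?_)).trans_eq hl.liminf_eq
    have h5 : ∫⁻ z, ‖φ n z‖ₑ ^ 4 = ENNReal.ofReal (∫ z, φ n z ^ 4) := by
      rw [ofReal_integral_eq_lintegral_ofReal]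
      · refine lintegral_congr fun z => ?_
        rw [← ofReal_norm, ← ENNReal.ofReal_pow (norm_nonneg _)]
        congr 1
        rw [Real.norm_eq_abs, Even.pow_abs (by decide)]
      · have := (h1 n).mul ((h1 n).mul (isTest_sq (h1 n)))
        have h6 := memLp_one_iff_integrable.1 (this.memLp 1)
        refine h6.congr (Eventually.of_forall fun z => ?_)
        ring
      · exact Eventually.of_forall fun z => by positivity
    rw [h5]
    exact ENNReal.ofReal_le_ofReal (h _ (h1 n))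
  have hmem : MemLp u 4 volume := by
    refine ⟨hu.1.1, ?_⟩
    rw [eLpNorm_lt_top_iff_lintegral_rpow_enorm_lt_top (by norm_num) (by norm_num)]
    have e : ∫⁻ z, ‖u z‖ₑ ^ (4 : ℝ≥0∞).toReal = ∫⁻ z, ‖u z‖ₑ ^ 4 := by
      refine lintegral_congr fun z => ?_
      have : (4 : ℝ≥0∞).toReal = ((4 : ℕ) : ℝ) := by norm_num
      rw [this, ENNReal.rpow_natCast]
    rw [e]
    exact key.trans_lt ENNReal.ofReal_lt_top
  refine ⟨hmem, ?_⟩
  have h6 : ∫⁻ z, ‖u z‖ₑ ^ 4 = ENNReal.ofReal (∫ z, u z ^ 4) := by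
    rw [ofReal_integral_eq_lintegral_ofReal]
    · refine lintegral_congr fun z => ?_
      rw [← ofReal_norm, ← ENNReal.ofReal_pow (norm_nonneg _)]
      congr 1
      rw [Real.norm_eq_abs, Even.pow_abs (by decide)]
    · have := hmem.integrable_norm_rpow (by norm_num) (by norm_num)
      have e : (4 : ℝ≥0∞).toReal = ((4 : ℕ) : ℝ) := by norm_num
      rw [e] at this
      simp only [Real.rpow_natCast, Real.norm_eq_abs] at this
      refine this.congr (Eventually.of_forall fun z => ?_)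
      exact Even.pow_abs (by decide) _
    · exact Eventually.of_forall fun z => by positivity
  rw [h6] at key
  have hG : 0 ≤ ∫ z, ‖G z‖ ^ 2 := by positivity
  have hU : 0 ≤ ∫ z, u z ^ 2 := by positivity
  exact (ENNReal.ofReal_le_ofReal_iff (by positivity)).1 key

theorem lady_mul : ∃ C : ℝ, 0 < C ∧ ∀ (f u : ℂ → ℝ) (G : ℂ → ℂ), MemLp f 2 volume →
    H10 univ u G → Integrable (fun z => f z * u z ^ 2) volume ∧
      ∫ z, |f z| * u z ^ 2 ≤
        C * Real.sqrt (∫ z, f z ^ 2) * Real.sqrt (∫ z, u z ^ 2) * Real.sqrt (∫ z, ‖G z‖ ^ 2) := by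
  obtain ⟨C, hC, h⟩ := ladyzhenskaya
  refine ⟨Real.sqrt C, Real.sqrt_pos.2 hC, fun f u G hf hu => ?_⟩
  obtain ⟨h1, h2⟩ := h u G hu
  have h3 := memLp_sq_of_four h1
  refine ⟨hf.integrable_mul h3, ?_⟩
  have h4 := cauchy_schwarz hf h3
  have e1 : ∀ z, (u z ^ 2) ^ 2 = u z ^ 4 := fun z => by ring
  have e2 : ∀ z, |f z * u z ^ 2| = |f z| * u z ^ 2 := fun z => by
    rw [abs_mul, abs_of_nonneg (sq_nonneg (u z))]
  simp only [e1, e2] at h4
  have hF : 0 ≤ ∫ z, f z ^ 2 := by positivity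
  have hU : 0 ≤ ∫ z, u z ^ 2 := by positivity
  have hG : 0 ≤ ∫ z, ‖G z‖ ^ 2 := by positivity
  have h5 : (∫ z, |f z| * u z ^ 2) ^ 2 ≤
      (∫ z, f z ^ 2) * (C * (∫ z, u z ^ 2) * ∫ z, ‖G z‖ ^ 2) :=
    h4.trans (by gcongr)
  have h6 := Real.sqrt_le_sqrt h5
  rw [Real.sqrt_sq (by positivity)] at h6
  refine h6.trans_eq ?_
  rw [Real.sqrt_mul hF, Real.sqrt_mul (by positivity), Real.sqrt_mul hC.le]
  ring

theorem nash : ∃ C : ℝ, 0 < C ∧ ∀ (u : ℂ → ℝ) (G : ℂ → ℂ), H10 univ u G → Integrable u volume →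
    ∫ z, u z ^ 2 ≤ C * (∫ z, |u z|) * Real.sqrt (∫ z, ‖G z‖ ^ 2) := by
  obtain ⟨C, hC, h⟩ := ladyzhenskaya
  refine ⟨Real.sqrt C, Real.sqrt_pos.2 hC, fun u G hu hint => ?_⟩
  obtain ⟨h1, h2⟩ := h u G hu
  have hG : 0 ≤ ∫ z, ‖G z‖ ^ 2 := by positivity
  have hU : 0 ≤ ∫ z, u z ^ 2 := by positivity
  have hA : 0 ≤ ∫ z, |u z| := by positivity
  have i1 : Integrable (fun z => |u z|) volume := hint.abs
  have i2 : Integrable (fun z => u z ^ 2) volume := by simpa using integrable_sq_norm hu.1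
  have i4 : Integrable (fun z => u z ^ 4) volume := by
    have := integrable_sq_norm (memLp_sq_of_four h1)
    refine this.congr (Eventually.of_forall fun z => ?_)
    simp only [Real.norm_eq_abs, sq_abs]
    ring
  have key : ∀ s : ℝ, Real.sqrt (C * ∫ z, ‖G z‖ ^ 2) < s →
      ∫ z, u z ^ 2 ≤ s * ∫ z, |u z| := by
    intro s hs
    have hs0 : 0 < s := (Real.sqrt_nonneg _).trans_lt hs
    have hs2 : C * ∫ z, ‖G z‖ ^ 2 ≤ s ^ 2 := by
      rw [← Real.sq_sqrt (show 0 ≤ C * ∫ z, ‖G z‖ ^ 2 by positivity)]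
      exact pow_le_pow_left₀ (Real.sqrt_nonneg _) hs.le 2
    have hpt : ∀ z, 3 * s ^ 2 * u z ^ 2 ≤ 2 * s ^ 3 * |u z| + u z ^ 4 := by
      intro z
      have e2 : u z ^ 2 = |u z| ^ 2 := (sq_abs _).symm
      have e4 : u z ^ 4 = |u z| ^ 4 := (Even.pow_abs (by decide) _).symm
      rw [e2, e4]
      have hx : 0 ≤ |u z| := abs_nonneg _
      have : 0 ≤ |u z| * (|u z| - s) ^ 2 * (|u z| + 2 * s) := by positivity
      nlinarith [this]
    have hI : 3 * s ^ 2 * (∫ z, u z ^ 2) ≤ 2 * s ^ 3 * (∫ z, |u z|) + ∫ z, u z ^ 4 := by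
      rw [← integral_const_mul, ← integral_const_mul, ← integral_add (i1.const_mul _) i4]
      exact integral_mono (i2.const_mul _) ((i1.const_mul _).add i4) hpt
    have h3 : ∫ z, u z ^ 4 ≤ s ^ 2 * ∫ z, u z ^ 2 := by
      refine h2.trans ?_
      calc C * (∫ z, u z ^ 2) * ∫ z, ‖G z‖ ^ 2 = (C * ∫ z, ‖G z‖ ^ 2) * ∫ z, u z ^ 2 := by ring
        _ ≤ _ := by gcongr
    have h4 : s ^ 2 * (∫ z, u z ^ 2) ≤ s ^ 2 * (s * ∫ z, |u z|) := by nlinarith
    exact le_of_mul_le_mul_left h4 (by positivity)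
  have h5 : ∫ z, u z ^ 2 ≤ Real.sqrt (C * ∫ z, ‖G z‖ ^ 2) * ∫ z, |u z| := by
    have hcont : Tendsto (fun s : ℝ => s * ∫ z, |u z|) (𝓝[>] (Real.sqrt (C * ∫ z, ‖G z‖ ^ 2)))
        (𝓝 (Real.sqrt (C * ∫ z, ‖G z‖ ^ 2) * ∫ z, |u z|)) :=
      ((continuous_mul_const _).tendsto _).mono_left nhdsWithin_le_nhds
    refine ge_of_tendsto hcont ?_
    filter_upwards [self_mem_nhdsWithin] with s hs
    exact key s hs
  refine h5.trans_eq ?_
  rw [Real.sqrt_mul hC.le]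
  ring

end Pool.Agent.H41.Ev
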