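import Pool.Agent.H2.Ev.Ineq
import Pool.Agent.H95.Perf.Poincare

/-!
# Poincare inequality on squares (MP_898b17_an, M2)
-/

open MeasureTheory Set Metric Filter Topology ContDiff
open scoped ENNReal NNReal RealInnerProductSpace

namespace Pool.Agent.H2.Ev

open Pool.Agent.H41.Ev

variable {Ω Ω' U : Set ℂ} {u v w w' : ℂ → ℝ} {G H W W' : ℂ → ℂ} {φ ψ : ℂ → ℝ}

theorem Sq_eq_rect (t : ℝ) (p : ℂ) : Sq t p =
    Pool.Agent.H95.Perf.rect (Icc (p.re - t) (p.re - t + 2 * t))
      (Icc (p.im - t) (p.im - t + 2 * t)) := by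
  ext z
  simp only [Sq, Pool.Agent.H95.Perf.rect, mem_ofPred_eq, mem_Icc, abs_le]
  constructor
  · rintro ⟨⟨h1, h2⟩, h3, h4⟩
    refine ⟨⟨?_, ?_⟩, ?_, ?_⟩ <;> linarith
  · rintro ⟨⟨h1, h2⟩, h3, h4⟩
    refine ⟨⟨?_, ?_⟩, ?_, ?_⟩ <;> linarith

theorem measurableSet_Sq (t : ℝ) (p : ℂ) : MeasurableSet (Sq t p) := by
  rw [Sq_eq_rect]
  exact Pool.Agent.H95.Perf.measurableSet_rect measurableSet_Icc measurableSet_Icc

theorem isClosed_Sq (t : ℝ) (p : ℂ) : IsClosed (Sq t p) := by
  apply IsClosed.inter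
  · exact isClosed_le (f := fun z : ℂ => |z.re - p.re|)
      ((Complex.continuous_re.sub continuous_const).abs) continuous_const
  · exact isClosed_le (f := fun z : ℂ => |z.im - p.im|)
      ((Complex.continuous_im.sub continuous_const).abs) continuous_const

theorem volume_real_Sq {t : ℝ} (ht : 0 ≤ t) (p : ℂ) : volume.real (Sq t p) = 4 * t ^ 2 := by
  rw [Sq_eq_rect, Pool.Agent.H95.Perf.volume_real_rect,
    Real.volume_real_Icc_of_le (by linarith), Real.volume_real_Icc_of_le (by linarith)]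
  ring

theorem volume_Sq_lt_top (t : ℝ) (p : ℂ) : volume (Sq t p) < ⊤ := by
  rw [Sq_eq_rect, Pool.Agent.H95.Perf.volume_rect]
  exact ENNReal.mul_lt_top measure_Icc_lt_top measure_Icc_lt_top

/-- `∫∫ (u(x)-u(y))² = 2 μ(univ) ∫u² - 2 (∫u)²`. -/
theorem double_integral_eq {μ : Measure ℂ} [IsFiniteMeasure μ] (hu : MemLp u 2 μ) :
    ∫ x, ∫ y, (u x - u y) ^ 2 ∂μ ∂μ =
      2 * μ.real univ * (∫ x, u x ^ 2 ∂μ) - 2 * (∫ x, u x ∂μ) ^ 2 := by
  have i1 : Integrable u μ := memLp_one_iff_integrable.1 (hu.mono_exponent (by norm_num))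
  have i2 : Integrable (fun z => u z ^ 2) μ := by simpa using integrable_sq_norm hu
  have e1 : ∀ x, ∫ y, (u x - u y) ^ 2 ∂μ =
      (μ.real univ * u x ^ 2 + ∫ y, u y ^ 2 ∂μ) - (2 * ∫ y, u y ∂μ) * u x := by
    intro x
    have e : ∀ y, (u x - u y) ^ 2 = (u x ^ 2 + u y ^ 2) - (2 * u x) * u y := fun y => by ring
    simp only [e]
    have i3 : Integrable (fun y => u x ^ 2 + u y ^ 2) μ := (integrable_const _).add i2
    rw [integral_sub i3 (i1.const_mul _),
      integral_add (integrable_const _) i2, integral_const, integral_const_mul]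
    simp only [smul_eq_mul]
    ring
  simp only [e1]
  have i4 : Integrable (fun x => μ.real univ * u x ^ 2 + ∫ y, u y ^ 2 ∂μ) μ :=
    (i2.const_mul _).add (integrable_const _)
  rw [integral_sub i4 (i1.const_mul _),
    integral_add (i2.const_mul _) (integrable_const _), integral_const, integral_const_mul,
    integral_const_mul]
  simp only [smul_eq_mul]
  ring

theorem isTest_isLip (h : IsTest Ω φ) : Pool.Agent.H95.Perf.IsLip φ := by
  obtain ⟨C, hC⟩ := ContDiff.lipschitzWith_of_hasCompactSupport h.2.1 h.1 (by simp)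
  exact ⟨C, hC⟩

end Pool.Agent.H2.Ev

namespace Pool.Agent.H41.Ev

open Pool.Agent.H2.Ev

theorem square_poincare₂ : ∃ C : ℝ, 0 < C ∧ ∀ (u : ℂ → ℝ) (G : ℂ → ℂ), H10 univ u G →
    ∀ (p : ℂ) (t : ℝ), 0 < t →
      ∫ x in Sq t p, ∫ y in Sq t p, (u x - u y) ^ 2 ≤ C * t ^ 4 * ∫ z in Sq t p, ‖G z‖ ^ 2 := by
  refine ⟨32, by norm_num, fun u G hu p t ht => ?_⟩
  obtain ⟨φ, h1, h2, h3⟩ := hu.approx
  have hfin := volume_Sq_lt_top t p
  have : IsFiniteMeasure (volume.restrict (Sq t p)) := ⟨by simpa using hfin⟩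
  -- restricted convergence
  have r2 : Tendsto (fun n => eLpNorm (fun z => φ n z - u z) 2 (volume.restrict (Sq t p)))
      atTop (𝓝 0) :=
    tendsto_of_tendsto_of_tendsto_of_le_of_le tendsto_const_nhds h2 (fun n => bot_le)
      fun n => eLpNorm_mono_measure _ Measure.restrict_le_self
  have r3 : Tendsto (fun n => eLpNorm (fun z => gradient (φ n) z - G z) 2
      (volume.restrict (Sq t p))) atTop (𝓝 0) :=
    tendsto_of_tendsto_of_tendsto_of_le_of_le tendsto_const_nhds h3 (fun n => bot_le)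
      fun n => eLpNorm_mono_measure _ Measure.restrict_le_self
  have m1 : ∀ n, MemLp (φ n) 2 (volume.restrict (Sq t p)) := fun n =>
    ((h1 n).memLp 2).mono_measure Measure.restrict_le_self
  have m2 : MemLp u 2 (volume.restrict (Sq t p)) := hu.1.mono_measure Measure.restrict_le_self
  have m3 : ∀ n, MemLp (gradient (φ n)) 2 (volume.restrict (Sq t p)) := fun n =>
    ((h1 n).memLp_gradient 2).mono_measure Measure.restrict_le_self
  have m4 : MemLp G 2 (volume.restrict (Sq t p)) := hu.2.mono_measure Measure.restrict_le_self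
  have t1 := tendsto_integral_sq_norm m1 m2 r2
  have t2 := tendsto_integral_sq_norm m3 m4 r3
  have t3 := tendsto_integral_mul m1 m2 (memLp_const (1 : ℝ)) r2
  simp only [Real.norm_eq_abs, sq_abs, one_mul] at t1 t3
  rw [double_integral_eq m2]
  refine le_of_tendsto_of_tendsto' ((t1.const_mul _).sub ((t3.pow 2).const_mul 2))
    (t2.const_mul (32 * t ^ 4)) fun n => ?_
  rw [← double_integral_eq (m1 n)]
  have hP := Pool.Agent.H95.Perf.poincare_rect (isTest_isLip (h1 n))
    (ordConnected_Icc : OrdConnected (Icc (p.re - t) (p.re - t + 2 * t)))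
    (ordConnected_Icc : OrdConnected (Icc (p.im - t) (p.im - t + 2 * t)))
    le_rfl le_rfl (by positivity : (0 : ℝ) ≤ 2 * t)
  rw [← Sq_eq_rect] at hP
  refine hP.trans_eq ?_
  simp only [norm_gradient]
  ring

theorem square_poincare : ∃ C : ℝ, 0 < C ∧ ∀ (u : ℂ → ℝ) (G : ℂ → ℂ), H10 univ u G →
    ∀ (p : ℂ) (t : ℝ), 0 < t →
      ∫ z in Sq t p, (u z - ⨍ x in Sq t p, u x) ^ 2 ≤ C * t ^ 2 * ∫ z in Sq t p, ‖G z‖ ^ 2 := by
  obtain ⟨C, hC, h⟩ := square_poincare₂
  refine ⟨C / 8, by positivity, fun u G hu p t ht => ?_⟩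
  have h1 := h u G hu p t ht
  have hfin := volume_Sq_lt_top t p
  have : IsFiniteMeasure (volume.restrict (Sq t p)) := ⟨by simpa using hfin⟩
  have m2 : MemLp u 2 (volume.restrict (Sq t p)) := hu.1.mono_measure Measure.restrict_le_self
  have i1 : Integrable u (volume.restrict (Sq t p)) :=
    memLp_one_iff_integrable.1 (m2.mono_exponent (by norm_num))
  have i2 : Integrable (fun z => u z ^ 2) (volume.restrict (Sq t p)) := by
    simpa using integrable_sq_norm m2
  rw [double_integral_eq m2] at h1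
  have hv : (volume.restrict (Sq t p)).real univ = 4 * t ^ 2 := by
    rw [measureReal_restrict_apply_univ, volume_real_Sq ht.le]
  set a : ℝ := ⨍ x in Sq t p, u x with ha
  have hav : a * (4 * t ^ 2) = ∫ x in Sq t p, u x := by
    rw [ha, average_eq, hv, smul_eq_mul]
    field_simp
  have e : ∀ z, (u z - a) ^ 2 = (u z ^ 2 + a ^ 2) - (2 * a) * u z := fun z => by ring
  simp only [e]
  have i5 : Integrable (fun z => u z ^ 2 + a ^ 2) (volume.restrict (Sq t p)) :=
    i2.add (integrable_const _)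
  rw [integral_sub i5 (i1.const_mul _),
    integral_add i2 (integrable_const _), integral_const, integral_const_mul, ← hav, hv]
  rw [← hav, hv] at h1
  simp only [smul_eq_mul]
  have h2 : 8 * t ^ 2 * ((∫ z in Sq t p, u z ^ 2) + 4 * t ^ 2 * a ^ 2 -
      2 * a * (a * (4 * t ^ 2))) ≤ 8 * t ^ 2 * (C / 8 * t ^ 2 * ∫ z in Sq t p, ‖G z‖ ^ 2) := by
    nlinarith [h1]
  exact le_of_mul_le_mul_left h2 (by positivity)

end Pool.Agent.H41.Ev
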